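import Pool.Agent.Helper730.LN6E

set_option autoImplicit false

namespace Pool.Agent.Results.MP_36c61b_al.LocNilpotent

open Pool.Agent.Helper730.LNV

theorem exists_not_nilpotent {p : ℕ}
    {W : (G : Type) → [TopologicalSpace G] → [Group G] → [IsTopologicalGroup G] → Prop}
    (hW : IsVar p W)
    (h : ¬ ∃ c : ℕ, ∀ (G : Type) [TopologicalSpace G] [Group G] [IsTopologicalGroup G],
        W G → Subgroup.upperCentralSeries G c = ⊤) :
    ¬ ∀ (G : Type) [TopologicalSpace G] [Group G] [IsTopologicalGroup G], W G →
      Group.IsNilpotent G := by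
  intro hall
  push Not at h
  choose G t g tg hG hne using h
  have hP : W ((n : ℕ) → G n) := hW.prod ℕ G hG
  obtain ⟨c, hc⟩ := hall _ hP
  apply hne c
  rw [Subgroup.eq_top_iff']
  intro x
  rw [mem_ucs_iff]
  intro l hl
  have h1 : Pi.mulSingle c x ∈ Subgroup.upperCentralSeries ((n : ℕ) → G n) c := by
    rw [hc]
    trivial
  have h2 := (mem_ucs_iff c _).1 h1 (l.map (fun y => Pi.mulSingle c y))
    (by rw [List.length_map, hl])
  have h3 := congrArg (Pi.evalMonoidHom G c) h2
  rw [map_cm, map_one, List.map_map] at h3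
  have h4 : (⇑(Pi.evalMonoidHom G c) ∘ fun y => Pi.mulSingle c y) = (id : G c → G c) := by
    funext y
    exact Pi.mulSingle_eq_same c y
  rw [h4, List.map_id] at h3
  have h5 : (Pi.evalMonoidHom G c) (Pi.mulSingle c x) = x := Pi.mulSingle_eq_same c x
  rwa [h5] at h3

/-- Let `p` be a prime and `V` a variety of pro-`p` groups, that is, a class of pro-`p` groups
closed under closed subgroups, continuous images which are pro-`p` groups, and arbitrary Cartesian
products.  If not every group in `V` is nilpotent, then `V` contains a variety `W` of pro-`p`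
groups such that not every group in `W` is nilpotent, but every topologically finitely generated
group in `W` is nilpotent. -/
theorem result :
  ∀ p : ℕ, p.Prime →
  ∀ V : (G : Type) → [TopologicalSpace G] → [Group G] → [IsTopologicalGroup G] → Prop,
    ((∀ (G : Type) [TopologicalSpace G] [Group G] [IsTopologicalGroup G], V G →
        CompactSpace G ∧ T2Space G ∧ TotallyDisconnectedSpace G ∧
        ∀ N : Subgroup G, N.Normal → IsOpen (N : Set G) → ∃ k : ℕ, N.index = p ^ k) ∧
     (∀ (G : Type) [TopologicalSpace G] [Group G] [IsTopologicalGroup G], V G →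
        ∀ H : Subgroup G, IsClosed (H : Set G) → V (↥H)) ∧
     (∀ (G H : Type) [TopologicalSpace G] [Group G] [IsTopologicalGroup G]
        [TopologicalSpace H] [Group H] [IsTopologicalGroup H], V G →
        (CompactSpace H ∧ T2Space H ∧ TotallyDisconnectedSpace H ∧
          ∀ N : Subgroup H, N.Normal → IsOpen (N : Set H) → ∃ k : ℕ, N.index = p ^ k) →
        ∀ f : G →* H, Continuous f → Function.Surjective f → V H) ∧
     (∀ (ι : Type) (G : ι → Type) [∀ i, TopologicalSpace (G i)] [∀ i, Group (G i)]
        [∀ i, IsTopologicalGroup (G i)], (∀ i, V (G i)) → V ((i : ι) → G i))) →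
    (¬ ∀ (G : Type) [TopologicalSpace G] [Group G] [IsTopologicalGroup G],
        V G → Group.IsNilpotent G) →
    ∃ W : (G : Type) → [TopologicalSpace G] → [Group G] → [IsTopologicalGroup G] → Prop,
      ((∀ (G : Type) [TopologicalSpace G] [Group G] [IsTopologicalGroup G], W G →
          CompactSpace G ∧ T2Space G ∧ TotallyDisconnectedSpace G ∧
          ∀ N : Subgroup G, N.Normal → IsOpen (N : Set G) → ∃ k : ℕ, N.index = p ^ k) ∧
       (∀ (G : Type) [TopologicalSpace G] [Group G] [IsTopologicalGroup G], W G →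
          ∀ H : Subgroup G, IsClosed (H : Set G) → W (↥H)) ∧
       (∀ (G H : Type) [TopologicalSpace G] [Group G] [IsTopologicalGroup G]
          [TopologicalSpace H] [Group H] [IsTopologicalGroup H], W G →
          (CompactSpace H ∧ T2Space H ∧ TotallyDisconnectedSpace H ∧
            ∀ N : Subgroup H, N.Normal → IsOpen (N : Set H) → ∃ k : ℕ, N.index = p ^ k) →
          ∀ f : G →* H, Continuous f → Function.Surjective f → W H) ∧
       (∀ (ι : Type) (G : ι → Type) [∀ i, TopologicalSpace (G i)] [∀ i, Group (G i)]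
          [∀ i, IsTopologicalGroup (G i)], (∀ i, W (G i)) → W ((i : ι) → G i))) ∧
      (∀ (G : Type) [TopologicalSpace G] [Group G] [IsTopologicalGroup G], W G → V G) ∧
      (¬ ∀ (G : Type) [TopologicalSpace G] [Group G] [IsTopologicalGroup G],
          W G → Group.IsNilpotent G) ∧
      (∀ (G : Type) [TopologicalSpace G] [Group G] [IsTopologicalGroup G], W G →
          ∀ S : Finset G, closure ((Subgroup.closure (S : Set G) : Subgroup G) : Set G) = Set.univ →
          Group.IsNilpotent G) := by
  intro p hp V hV hne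
  obtain ⟨h1, h2, h3, h4⟩ := hV
  have hunb : ¬ ∃ c : ℕ, ∀ (G : Type) [TopologicalSpace G] [Group G] [IsTopologicalGroup G],
      V G → Subgroup.upperCentralSeries G c = ⊤ := by
    rintro ⟨c, hc⟩
    exact hne fun G _ _ _ hG => ⟨c, hc G hG⟩
  obtain ⟨W, hW, hWV, hWu, hWn⟩ := Pool.Agent.Helper730.LN6.main_all hp
    (V := V) ⟨h1, h2, h3, h4⟩ hunb
  exact ⟨W, ⟨hW.proP, hW.sub, hW.quot, hW.prod⟩, hWV, exists_not_nilpotent hW hWu, hWn⟩

end Pool.Agent.Results.MP_36c61b_al.LocNilpotent
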