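import Pool.Agent.Helper730.LNV5

set_option autoImplicit false

namespace Pool.Agent.Results.MP_36c61b_al.SolubleUnbounded

open Pool.Agent.Helper730.LNV

/-- Let `p` be a prime and `V` a variety of pro-`p` groups (the four conditions below are those of
the frozen statement `S00645`, word for word).  If for some `d` the members of `V` that are soluble
of derived length at most `d` do not have bounded nilpotency class, then `V` contains a variety `W`
of (metabelian) pro-`p` groups which is not nilpotent but whose topologically finitely generated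
members are all nilpotent. -/
theorem result :
  ∀ p : ℕ, p.Prime →
  ∀ V : (G : Type) → [TopologicalSpace G] → [Group G] → [IsTopologicalGroup G] → Prop,
    ((∀ (G : Type) [TopologicalSpace G] [Group G] [IsTopologicalGroup G], V G →
        CompactSpace G ∧ T2Space G ∧ TotallyDisconnectedSpace G ∧
        ∀ N : Subgroup G, N.Normal → IsOpen (N : Set G) → ∃ k : ℕ, N.index = p ^ k) ∧
     (∀ (G : Type) [TopologicalSpace G] [Group G] [IsTopologicalGroup G], V G →
        ∀ H : Subgroup G, IsClosed (H : Set G) → V (↥H)) ∧
     (∀ (G H : Type) [TopologicalSpace G] [Group G] [IsTopologicalGroup G]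
        [TopologicalSpace H] [Group H] [IsTopologicalGroup H], V G →
        (CompactSpace H ∧ T2Space H ∧ TotallyDisconnectedSpace H ∧
          ∀ N : Subgroup H, N.Normal → IsOpen (N : Set H) → ∃ k : ℕ, N.index = p ^ k) →
        ∀ f : G →* H, Continuous f → Function.Surjective f → V H) ∧
     (∀ (ι : Type) (G : ι → Type) [∀ i, TopologicalSpace (G i)] [∀ i, Group (G i)]
        [∀ i, IsTopologicalGroup (G i)], (∀ i, V (G i)) → V ((i : ι) → G i))) →
    ∀ d : ℕ,
    (¬ ∃ c : ℕ, ∀ (G : Type) [TopologicalSpace G] [Group G] [IsTopologicalGroup G],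
        V G → derivedSeries G d = ⊥ → Subgroup.upperCentralSeries G c = ⊤) →
    ∃ W : (G : Type) → [TopologicalSpace G] → [Group G] → [IsTopologicalGroup G] → Prop,
      ((∀ (G : Type) [TopologicalSpace G] [Group G] [IsTopologicalGroup G], W G →
          CompactSpace G ∧ T2Space G ∧ TotallyDisconnectedSpace G ∧
          ∀ N : Subgroup G, N.Normal → IsOpen (N : Set G) → ∃ k : ℕ, N.index = p ^ k) ∧
       (∀ (G : Type) [TopologicalSpace G] [Group G] [IsTopologicalGroup G], W G →
          ∀ H : Subgroup G, IsClosed (H : Set G) → W (↥H)) ∧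
       (∀ (G H : Type) [TopologicalSpace G] [Group G] [IsTopologicalGroup G]
          [TopologicalSpace H] [Group H] [IsTopologicalGroup H], W G →
          (CompactSpace H ∧ T2Space H ∧ TotallyDisconnectedSpace H ∧
            ∀ N : Subgroup H, N.Normal → IsOpen (N : Set H) → ∃ k : ℕ, N.index = p ^ k) →
          ∀ f : G →* H, Continuous f → Function.Surjective f → W H) ∧
       (∀ (ι : Type) (G : ι → Type) [∀ i, TopologicalSpace (G i)] [∀ i, Group (G i)]
          [∀ i, IsTopologicalGroup (G i)], (∀ i, W (G i)) → W ((i : ι) → G i))) ∧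
      (∀ (G : Type) [TopologicalSpace G] [Group G] [IsTopologicalGroup G], W G →
          V G ∧ derivedSeries G 2 = ⊥) ∧
      (¬ ∃ c : ℕ, ∀ (G : Type) [TopologicalSpace G] [Group G] [IsTopologicalGroup G],
          W G → Subgroup.upperCentralSeries G c = ⊤) ∧
      (∀ (G : Type) [TopologicalSpace G] [Group G] [IsTopologicalGroup G], W G →
          ∀ S : Finset G, closure ((Subgroup.closure (S : Set G) : Subgroup G) : Set G) = Set.univ →
          Group.IsNilpotent G) := by
  intro p hp V hV d h
  obtain ⟨h1, h2, h3, h4⟩ := hV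
  obtain ⟨W, hW, hWV, hnot, hloc⟩ := main hp ⟨h1, h2, h3, h4⟩ d h
  exact ⟨W, ⟨hW.proP, hW.sub, hW.quot, hW.prod⟩, hWV, hnot, hloc⟩

end Pool.Agent.Results.MP_36c61b_al.SolubleUnbounded
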